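import Pool.Agent.Helper87.Irr.Full

namespace Pool.Agent.Results.MP_033e98_co.ExactValue

/-- Chartrand's question: `n(2) = 4` and `n(p) = 2p + 1` for every `p ≥ 3`. -/
theorem result : ∀ p : ℕ, 2 ≤ p →
    IsGreatest {N | Irr37.AllTreesUpTo p N} (if p = 2 then 4 else 2 * p + 1) :=
  Irr87.target

end Pool.Agent.Results.MP_033e98_co.ExactValue
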